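import Mathlib

set_option autoImplicit false

namespace Pool.Agent.H.MP_8823bb_al

open Matrix
open scoped ComplexOrder

lemma path_pos {n : ℕ} (H : ℝ → Matrix (Fin n) (Fin n) ℂ) (hc : Continuous H)
    (hh : ∀ a, (H a).IsHermitian) (hnd : ∀ a y, H a *ᵥ y = 0 → y = 0)
    (h0 : ∀ y, y ≠ 0 → 0 < (star y ⬝ᵥ H 0 *ᵥ y).re) (a : ℝ) (y : Fin n → ℂ) (hy : y ≠ 0) :
    0 < (star y ⬝ᵥ H a *ᵥ y).re := by
  set q : ℝ → (Fin n → ℂ) → ℝ := fun a y => (star y ⬝ᵥ H a *ᵥ y).re with hq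
  have hqc : Continuous ↿q := by
    change Continuous fun p : ℝ × (Fin n → ℂ) => (star p.2 ⬝ᵥ H p.1 *ᵥ p.2).re
    fun_prop
  have hK := isCompact_sphere (0 : Fin n → ℂ) 1
  have hs : ∀ v : Fin n → ℂ, v ≠ 0 → ∃ u ∈ Metric.sphere (0 : Fin n → ℂ) 1,
      ∀ b, q b v = ‖v‖ ^ 2 * q b u := by
    intro v hv
    have h1 : ‖v‖ ≠ 0 := norm_ne_zero_iff.2 hv
    refine ⟨((‖v‖⁻¹ : ℝ) : ℂ) • v, by simp [norm_smul, h1], fun b => ?_⟩
    simp only [hq, star_smul, mulVec_smul, smul_dotProduct, dotProduct_smul, smul_eq_mul,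
      Complex.star_def, Complex.conj_ofReal, Complex.re_ofReal_mul]
    field_simp
  obtain ⟨u0, hu0, hu⟩ := hs y hy
  have hm : ∀ b, ∃ u ∈ Metric.sphere (0 : Fin n → ℂ) 1,
      sInf (q b '' Metric.sphere (0 : Fin n → ℂ) 1) = q b u ∧
        ∀ v ∈ Metric.sphere (0 : Fin n → ℂ) 1, q b u ≤ q b v := fun b =>
    hK.exists_sInf_image_eq_and_le ⟨u0, hu0⟩ (hqc.comp (Continuous.prodMk_right b)).continuousOn
  have hne : ∀ u ∈ Metric.sphere (0 : Fin n → ℂ) 1, u ≠ 0 := by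
    rintro u hu rfl
    simp at hu
  have hf := hK.continuous_sInf hqc
  have hz : ∀ b, sInf (q b '' Metric.sphere (0 : Fin n → ℂ) 1) ≠ 0 := by
    intro b hb
    obtain ⟨u, hu1, hu2, hu3⟩ := hm b
    rw [hb] at hu2
    have hp : (H b).PosSemidef := by
      refine .of_dotProduct_mulVec_nonneg (hh b) fun x => ?_
      rw [Complex.nonneg_iff]
      refine ⟨?_, ((hh b).im_star_dotProduct_mulVec_self x).symm⟩
      by_cases hx : x = 0
      · simp [hx]
      · obtain ⟨v, hv1, hv2⟩ := hs x hx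
        have h1 := hu3 v hv1
        change 0 ≤ q b x
        rw [hv2]
        exact mul_nonneg (sq_nonneg _) (hu2.le.trans h1)
    refine hne u hu1 (hnd b u ((hp.dotProduct_mulVec_zero_iff u).1 ?_))
    exact Complex.ext hu2.symm ((hh b).im_star_dotProduct_mulVec_self u)
  have h00 : 0 < sInf (q 0 '' Metric.sphere (0 : Fin n → ℂ) 1) := by
    obtain ⟨u, hu1, hu2, -⟩ := hm 0
    rw [hu2]
    exact h0 u (hne u hu1)
  have ha : 0 < sInf (q a '' Metric.sphere (0 : Fin n → ℂ) 1) := by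
    by_contra h
    obtain ⟨b, hb⟩ := intermediate_value_univ a 0 hf ⟨not_lt.1 h, h00.le⟩
    exact hz b hb
  obtain ⟨u, -, hu2, hu3⟩ := hm a
  change 0 < q a y
  rw [hu]
  exact mul_pos (pow_pos (norm_pos_iff.2 hy) 2) ((ha.trans_eq hu2).trans_le (hu3 u0 hu0))

section
variable {n : ℕ}

noncomputable def av (k : ℕ) (B : Matrix (Fin n) (Fin n) ℂ) : Matrix (Fin n) (Fin n) ℂ :=
  (k : ℂ)⁻¹ • ∑ j ∈ Finset.range k, B ^ j

lemma mul_av {k : ℕ} (hk : 0 < k) {B X : Matrix (Fin n) (Fin n) ℂ} (h : X * B = X) :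
    X * av k B = X := by
  have h1 : ∀ j : ℕ, X * B ^ j = X := by
    intro j
    induction j with
    | zero => simp
    | succ j ih => rw [pow_succ, ← mul_assoc, ih, h]
  have h2 : (k : ℂ) ≠ 0 := by exact_mod_cast hk.ne'
  rw [av, Matrix.mul_smul, Finset.mul_sum]
  simp only [h1, Finset.sum_const, Finset.card_range]
  rw [← Nat.cast_smul_eq_nsmul ℂ, smul_smul, inv_mul_cancel₀ h2, one_smul]

lemma av_vec {k : ℕ} (hk : 0 < k) {B : Matrix (Fin n) (Fin n) ℂ} {y : Fin n → ℂ}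
    (h : B *ᵥ y = y) : av k B *ᵥ y = y := by
  have h1 : ∀ j : ℕ, B ^ j *ᵥ y = y := by
    intro j
    induction j with
    | zero => simp
    | succ j ih => rw [pow_succ, ← mulVec_mulVec, h, ih]
  have h2 : (k : ℂ) ≠ 0 := by exact_mod_cast hk.ne'
  rw [av, smul_mulVec, sum_mulVec]
  simp only [h1, Finset.sum_const, Finset.card_range]
  rw [← Nat.cast_smul_eq_nsmul ℂ, smul_smul, inv_mul_cancel₀ h2, one_smul]

lemma vec_av {k : ℕ} (hk : 0 < k) {B : Matrix (Fin n) (Fin n) ℂ} {y : Fin n → ℂ}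
    (h : y ᵥ* B = y) : y ᵥ* av k B = y := by
  have h1 : ∀ j : ℕ, y ᵥ* B ^ j = y := by
    intro j
    induction j with
    | zero => simp
    | succ j ih => rw [pow_succ, ← vecMul_vecMul, ih, h]
  have h2 : (k : ℂ) ≠ 0 := by exact_mod_cast hk.ne'
  rw [av, vecMul_smul, vecMul_sum]
  simp only [h1, Finset.sum_const, Finset.card_range]
  rw [← Nat.cast_smul_eq_nsmul ℂ, smul_smul, inv_mul_cancel₀ h2, one_smul]

lemma B_av {k : ℕ} {B : Matrix (Fin n) (Fin n) ℂ} (h : B ^ k = 1) : B * av k B = av k B := by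
  have h1 := mul_geom_sum B k
  rw [h, sub_self, sub_mul, one_mul, sub_eq_zero] at h1
  rw [av, Matrix.mul_smul, h1]

lemma av_B {k : ℕ} {B : Matrix (Fin n) (Fin n) ℂ} (h : B ^ k = 1) : av k B * B = av k B := by
  have h1 := geom_sum_mul B k
  rw [h, sub_self, mul_sub, mul_one, sub_eq_zero] at h1
  rw [av, Matrix.smul_mul, h1]

theorem key (N B : ℝ → Matrix (Fin n) (Fin n) ℂ) (hN : Continuous N) (hB : Continuous B)
    (h1 : ∀ a, (N a).IsHermitian) (h2 : ∀ a, (B a)ᴴ * N a * B a = N a)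
    (h3 : ∀ a y, N a *ᵥ y = 0 → B a *ᵥ y = y) (h4 : (1 : Fin n → ℂ) ᵥ* B 0 = 1)
    (h5 : ∀ y : Fin n → ℂ, 1 ⬝ᵥ y = 0 → N 0 *ᵥ y = y)
    (h6 : ∀ a, ∃ b, N b = -N a ∧ B b = B a) {k : ℕ} (hk : 0 < k) (h7 : ∀ a, B a ^ k = 1)
    (a : ℝ) : B a = 1 := by
  set E : ℝ → Matrix (Fin n) (Fin n) ℂ := fun a => av k (B a) with hE
  have e1 : ∀ a, E a * E a = E a := fun a => mul_av hk (av_B (h7 a))
  have e2 : ∀ a, (E a)ᴴ * N a * E a = (E a)ᴴ * N a := by
    intro a
    refine mul_av hk ?_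
    have : (E a)ᴴ = (E a)ᴴ * (B a)ᴴ := by rw [← conjTranspose_mul, B_av (h7 a)]
    conv_lhs => rw [this, mul_assoc (E a)ᴴ, mul_assoc (E a)ᴴ, h2]
  have e3 : ∀ a, N a * E a = (E a)ᴴ * N a := by
    intro a
    have := congrArg conjTranspose (e2 a)
    simp only [conjTranspose_mul, conjTranspose_conjTranspose, (h1 a).eq] at this
    rw [← this, ← mul_assoc, e2]
  have hp := path_pos (fun a => N a - N a * E a + (E a)ᴴ * E a)
    (by simp only [hE, av]; fun_prop)
    (fun a => by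
      simp only [IsHermitian, conjTranspose_add, conjTranspose_sub, conjTranspose_mul,
        conjTranspose_conjTranspose, (h1 a).eq, e3])
    (fun a y hy => by
      have g1 : (E a)ᴴ * (N a - N a * E a + (E a)ᴴ * E a) = (E a)ᴴ * E a := by
        rw [mul_add, mul_sub, ← mul_assoc, e2, sub_self, zero_add, ← mul_assoc,
          ← conjTranspose_mul, e1]
      have g2 : E a *ᵥ y = 0 := by
        rw [← conjTranspose_mul_self_mulVec_eq_zero, ← g1, ← mulVec_mulVec, hy, mulVec_zero]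
      rw [add_mulVec, sub_mulVec, ← mulVec_mulVec, ← mulVec_mulVec, g2] at hy
      simp only [mulVec_zero, sub_zero, add_zero] at hy
      rw [← g2]
      exact (av_vec hk (h3 a y hy)).symm)
    (fun y hy => by
      have g1 : N 0 - N 0 * E 0 = (1 - E 0)ᴴ * N 0 * (1 - E 0) := by
        simp only [conjTranspose_sub, conjTranspose_one, sub_mul, mul_sub, one_mul, mul_one, e2, e3,
          sub_self, sub_zero]
      have g2 : N 0 *ᵥ ((1 - E 0) *ᵥ y) = (1 - E 0) *ᵥ y := by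
        apply h5
        rw [dotProduct_mulVec, vecMul_sub, vecMul_one, vec_av hk h4, sub_self, zero_dotProduct]
      have g3 : ∀ X : Matrix (Fin n) (Fin n) ℂ, ∀ z, star y ⬝ᵥ Xᴴ *ᵥ z = star (X *ᵥ y) ⬝ᵥ z := by
        intro X z
        rw [star_mulVec, dotProduct_mulVec]
      simp only [g1]
      rw [add_mulVec, ← mulVec_mulVec, ← mulVec_mulVec, ← mulVec_mulVec, g2, dotProduct_add, g3, g3]
      have g4 : (0 : ℂ) < star ((1 - E 0) *ᵥ y) ⬝ᵥ (1 - E 0) *ᵥ y + star (E 0 *ᵥ y) ⬝ᵥ E 0 *ᵥ y := by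
        by_cases g5 : E 0 *ᵥ y = 0
        · refine add_pos_of_pos_of_nonneg (dotProduct_star_self_pos_iff.2 ?_)
            (dotProduct_star_self_nonneg _)
          rwa [sub_mulVec, g5, one_mulVec, sub_zero]
        · exact add_pos_of_nonneg_of_pos (dotProduct_star_self_nonneg _)
            (dotProduct_star_self_pos_iff.2 g5)
      exact (Complex.pos_iff.1 g4).1)
  have e4 : ∀ z, E a *ᵥ z = z := by
    intro z
    by_contra hz
    have g1 : E a *ᵥ (z - E a *ᵥ z) = 0 := by rw [mulVec_sub, mulVec_mulVec, e1, sub_self]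
    have g2 : z - E a *ᵥ z ≠ 0 := fun h => hz (sub_eq_zero.1 h).symm
    obtain ⟨b, hb1, hb2⟩ := h6 a
    have g3 : E b = E a := by simp only [hE, hb2]
    have g4 := hp a _ g2
    have g5 := hp b _ g2
    simp only [hb1, g3] at g5
    rw [add_mulVec, sub_mulVec, ← mulVec_mulVec, ← mulVec_mulVec, g1] at g4 g5
    simp only [mulVec_zero, sub_zero, add_zero, neg_mulVec, dotProduct_neg, Complex.neg_re] at g4 g5
    linarith
  have e5 : E a = 1 := by
    ext i j
    have := congrFun (e4 (Pi.single j 1)) i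
    simpa [Pi.single_apply, one_apply] using this
  have := B_av (h7 a)
  change B a * E a = E a at this
  rwa [e5, mul_one] at this

def Inv (N B : Matrix (Fin n) (Fin n) ℂ) : Prop :=
  Bᴴ * N * B = N ∧ (∀ y, N *ᵥ y = 0 → B *ᵥ y = y) ∧ (1 : Fin n → ℂ) ᵥ* B = 1

lemma inv_one (N : Matrix (Fin n) (Fin n) ℂ) : Inv N 1 := by simp [Inv]

lemma inv_mul {N B C : Matrix (Fin n) (Fin n) ℂ} (h : Inv N B) (g : Inv N C) : Inv N (B * C) := by
  refine ⟨?_, fun y hy => ?_, ?_⟩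
  · rw [conjTranspose_mul, show Cᴴ * Bᴴ * N * (B * C) = Cᴴ * (Bᴴ * N * B) * C by
      simp only [mul_assoc], h.1, g.1]
  · rw [← mulVec_mulVec, g.2.1 y hy, h.2.1 y hy]
  · rw [← vecMul_vecMul, h.2.2, g.2.2]

lemma inv_gen {N : Matrix (Fin n) (Fin n) ℂ} (hN : N.IsHermitian) {u f : Fin n → ℂ} {c l : ℂ}
    (hc : c ≠ 0) (hu : N *ᵥ u = c • star f) (h1 : 1 ⬝ᵥ u = 0)
    (hl : l * c + star l * star c + star l * l * c * star (u ⬝ᵥ f) = 0) :
    Inv N (1 + l • vecMulVec u f) := by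
  have g1 : N * vecMulVec u f = c • vecMulVec (star f) f := by
    rw [mul_vecMulVec, hu, smul_vecMulVec]
  have g0 : (vecMulVec (star f) f)ᴴ = vecMulVec (star f) f := by
    ext i j; simp [vecMulVec_apply, mul_comm]
  have g2 : (vecMulVec u f)ᴴ * N = star c • vecMulVec (star f) f := by
    have := congrArg conjTranspose g1
    rwa [conjTranspose_mul, hN.eq, conjTranspose_smul, g0] at this
  have g3 : (vecMulVec u f)ᴴ * vecMulVec (star f) f = star (u ⬝ᵥ f) • vecMulVec (star f) f := by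
    ext i j
    simp [vecMulVec_apply, mul_apply, dotProduct, Finset.mul_sum, mul_comm,
      mul_left_comm]
  refine ⟨?_, fun y hy => ?_, ?_⟩
  · rw [mul_assoc, mul_add, mul_one, Matrix.mul_smul, g1, conjTranspose_add, conjTranspose_one,
      conjTranspose_smul, add_mul, one_mul, Matrix.smul_mul, mul_add, g2, Matrix.mul_smul,
      Matrix.mul_smul, g3, add_assoc, add_eq_left]
    simp only [smul_smul, ← add_smul]
    rw [show l * c + star l * (star c + l * (c * star (u ⬝ᵥ f))) = 0 by linear_combination hl,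
      zero_smul]
  · have g4 : star u ⬝ᵥ N *ᵥ y = star c * (f ⬝ᵥ y) := by
      rw [dotProduct_mulVec, ← hN.eq, ← star_mulVec, hu]
      simp
    rw [hy, dotProduct_zero, eq_comm, mul_eq_zero] at g4
    have g5 : f ⬝ᵥ y = 0 := g4.resolve_left (star_ne_zero.2 hc)
    rw [add_mulVec, one_mulVec, smul_mulVec, vecMulVec_mulVec, g5]
    simp
  · rw [vecMul_add, vecMul_one, vecMul_smul, vecMul_vecMulVec, h1]
    simp

end

end Pool.Agent.H.MP_8823bb_al
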