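import Pool.Agent.H.MP_8823bb_al.A

set_option autoImplicit false

namespace Pool.Agent.H.MP_8823bb_al

open Matrix

noncomputable def sq (a : ℝ) : ℂ := Complex.exp (a * Complex.I)

lemma sq_ne (a : ℝ) : sq a ≠ 0 := Complex.exp_ne_zero _

lemma star_sq (a : ℝ) : (starRingEnd ℂ) (sq a) = (sq a)⁻¹ := by
  rw [sq, ← Complex.exp_conj, ← Complex.exp_neg]
  simp

lemma sq_pi (a : ℝ) : sq (a + Real.pi) = -sq a := by
  simp [sq, add_mul, Complex.exp_add]

lemma sq_cont : Continuous sq := by unfold sq; fun_prop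

noncomputable def ev (a : ℝ) : LaurentPolynomial ℤ →+* ℂ :=
  LaurentPolynomial.eval₂ (Int.castRingHom ℂ) (Units.mk0 (sq a ^ 2) (pow_ne_zero 2 (sq_ne a)))

lemma ev_pi (a : ℝ) : ev (a + Real.pi) = ev a := by
  unfold ev
  congr 1
  ext
  simp [sq_pi]

lemma ev_T (a : ℝ) : ev a (LaurentPolynomial.T 1) = sq a ^ 2 := by
  simp [ev, LaurentPolynomial.eval₂_T]

lemma ev_T' (a : ℝ) : ev a (LaurentPolynomial.T (-1)) = (sq a ^ 2)⁻¹ := by
  simp [ev, LaurentPolynomial.eval₂_T]

lemma ev_eq (f : LaurentPolynomial ℤ) : ∃ (m : ℕ) (p : Polynomial ℤ),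
    Polynomial.toLaurent p = f * LaurentPolynomial.T m ∧
      ∀ a, ev a f * (sq a ^ 2) ^ m = (p.map (Int.castRingHom ℂ)).eval (sq a ^ 2) := by
  obtain ⟨m, p, hp⟩ := f.exists_T_pow
  refine ⟨m, p, hp, fun a => ?_⟩
  have := congrArg (ev a) hp
  rw [map_mul] at this
  simp only [ev, LaurentPolynomial.eval₂_toLaurent, LaurentPolynomial.eval₂_T_n,
    Units.val_mk0] at this
  rw [Polynomial.eval_map, this, ev]

lemma ev_cont (f : LaurentPolynomial ℤ) : Continuous fun a => ev a f := by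
  obtain ⟨m, p, -, h⟩ := ev_eq f
  have : (fun a => ev a f)
      = fun a => (p.map (Int.castRingHom ℂ)).eval (sq a ^ 2) / (sq a ^ 2) ^ m := by
    funext a
    rw [← h, mul_div_cancel_right₀ _ (pow_ne_zero _ (pow_ne_zero 2 (sq_ne a)))]
  rw [this]
  exact ((Polynomial.continuous _).comp (sq_cont.pow 2)).div ((sq_cont.pow 2).pow m)
    fun a => pow_ne_zero _ (pow_ne_zero 2 (sq_ne a))

lemma ev_inj (f : LaurentPolynomial ℤ) (h : ∀ a, ev a f = 0) : f = 0 := by
  obtain ⟨m, p, hp, h1⟩ := ev_eq f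
  have h2 : p.map (Int.castRingHom ℂ) = 0 := by
    apply Polynomial.eq_zero_of_infinite_isRoot
    have h3 : Set.InjOn (fun a : ℝ => sq a ^ 2) (Set.Ioo 0 1) := by
      intro a ha b hb hab
      have h4 := congrArg Complex.re hab
      simp only [sq, ← Complex.exp_nat_mul, Nat.cast_ofNat] at h4
      rw [← mul_assoc, ← mul_assoc, show (2 : ℂ) * a = ((2 * a : ℝ) : ℂ) by simp,
        show (2 : ℂ) * b = ((2 * b : ℝ) : ℂ) by simp, Complex.exp_ofReal_mul_I_re,
        Complex.exp_ofReal_mul_I_re] at h4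
      have h5 := Real.pi_gt_three
      have := Real.injOn_cos ⟨by linarith [ha.1], by linarith [ha.2]⟩
        ⟨by linarith [hb.1], by linarith [hb.2]⟩ h4
      linarith
    refine ((Set.Ioo_infinite (zero_lt_one' ℝ)).image h3).mono ?_
    rintro _ ⟨a, -, rfl⟩
    change Polynomial.eval _ _ = 0
    rw [← h1, h, zero_mul]
  rw [Polynomial.map_eq_zero_iff (RingHom.injective_int _)] at h2
  rw [h2, map_zero] at hp
  exact ((LaurentPolynomial.isUnit_T m).mul_left_eq_zero).1 hp.symm

noncomputable def NN (n : ℕ) (a : ℝ) : Matrix (Fin n) (Fin n) ℂ :=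
  Matrix.of fun j k => if j < k then -(sq a)⁻¹ else if k < j then -sq a else 0

lemma NN_herm (n : ℕ) (a : ℝ) : (NN n a).IsHermitian := by
  ext j k
  simp only [NN, conjTranspose_apply, of_apply]
  rcases lt_trichotomy j k with h | h | h
  · simp [h, h.not_gt, star_sq]
  · simp [h]
  · simp [h, h.not_gt, star_sq]

lemma NN_cont (n : ℕ) : Continuous (NN n) := by
  refine continuous_matrix fun j k => ?_
  simp only [NN, of_apply]
  split_ifs
  · exact (sq_cont.inv₀ sq_ne).neg
  · exact sq_cont.neg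
  · exact continuous_const

lemma NN_pi (n : ℕ) (a : ℝ) : NN n (a + Real.pi) = -NN n a := by
  ext j k
  simp only [NN, of_apply, Matrix.neg_apply, sq_pi]
  split_ifs <;> simp [inv_neg]

lemma NN_zero (n : ℕ) (y : Fin n → ℂ) (h : 1 ⬝ᵥ y = 0) : NN n 0 *ᵥ y = y := by
  have : NN n 0 = 1 - vecMulVec 1 1 := by
    ext j k
    simp only [NN, of_apply, sq, Matrix.sub_apply, vecMulVec_apply, Matrix.one_apply]
    rcases lt_trichotomy j k with h | h | h
    · simp [h, h.ne]
    · simp [h]
    · simp [h, h.ne', h.not_gt]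
  rw [this, sub_mulVec, one_mulVec, vecMulVec_mulVec, h]
  simp

lemma gen {n : ℕ} (a : ℝ) (i j : Fin n) (hij : (j : ℕ) = i + 1) (l : ℂ)
    (hl : l = 1 ∨ l = (sq a ^ 2)⁻¹) :
    Inv (NN n a) (1 + l • vecMulVec (Pi.single i 1 - Pi.single j 1)
      (Pi.single j 1 - sq a ^ 2 • Pi.single i 1)) := by
  have h0 := sq_ne a
  have h1 : i ≠ j := by rintro rfl; omega
  refine inv_gen (NN_herm n a) (c := -sq a) (neg_ne_zero.2 h0) ?_ (by simp) ?_
  · funext x
    simp only [mulVec_sub, mulVec_single_one, Pi.sub_apply, col_apply, NN, of_apply,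
      Pi.smul_apply, Pi.star_apply, Pi.single_apply, smul_eq_mul, Fin.lt_def, Fin.ext_iff]
    split_ifs <;> first | omega | (simp [star_sq]; done) | (simp [star_sq]; field_simp)
  · have h2 : (Pi.single i 1 - Pi.single j 1 : Fin n → ℂ) ⬝ᵥ
        (Pi.single j 1 - sq a ^ 2 • Pi.single i 1) = -(1 + sq a ^ 2) := by
      simp [h1, h1.symm]
      ring
    rw [h2]
    rcases hl with rfl | rfl <;> simp [star_sq] <;> field_simp <;> ring

def gens (n : ℕ) : Set (Matrix (Fin n) (Fin n) (LaurentPolynomial ℤ)) :=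
  {A : Matrix (Fin n) (Fin n) (LaurentPolynomial ℤ) |
          ∃ i : ℕ, i + 1 < n ∧
            (A = Matrix.of (fun (a b : Fin n) =>
                if ((a : ℕ) = i ∧ (b : ℕ) = i) then (1 - LaurentPolynomial.T 1 : LaurentPolynomial ℤ)
                else if ((a : ℕ) = i ∧ (b : ℕ) = i + 1) then (LaurentPolynomial.T 1 : LaurentPolynomial ℤ)
                else if ((a : ℕ) = i + 1 ∧ (b : ℕ) = i) then (1 : LaurentPolynomial ℤ)
                else if ((a : ℕ) = i + 1 ∧ (b : ℕ) = i + 1) then (0 : LaurentPolynomial ℤ)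
                else if a = b then (1 : LaurentPolynomial ℤ) else (0 : LaurentPolynomial ℤ))
            ∨ A = Matrix.of (fun (a b : Fin n) =>
                if ((a : ℕ) = i ∧ (b : ℕ) = i) then (0 : LaurentPolynomial ℤ)
                else if ((a : ℕ) = i ∧ (b : ℕ) = i + 1) then (1 : LaurentPolynomial ℤ)
                else if ((a : ℕ) = i + 1 ∧ (b : ℕ) = i) then (LaurentPolynomial.T (-1) : LaurentPolynomial ℤ)
                else if ((a : ℕ) = i + 1 ∧ (b : ℕ) = i + 1) then (1 - LaurentPolynomial.T (-1) : LaurentPolynomial ℤ)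
                else if a = b then (1 : LaurentPolynomial ℤ) else (0 : LaurentPolynomial ℤ)))}

lemma all_inv {n : ℕ} (a : ℝ) {M : Matrix (Fin n) (Fin n) (LaurentPolynomial ℤ)}
    (hM : M ∈ Submonoid.closure (gens n)) : Inv (NN n a) ((ev a).mapMatrix M)ᵀ := by
  induction hM using Submonoid.closure_induction with
  | one => rw [map_one, transpose_one]; exact inv_one _
  | mul x y _ _ hx hy => rw [map_mul, transpose_mul]; exact inv_mul hy hx
  | mem x hx =>
    have h0 := sq_ne a
    obtain ⟨i, hi, rfl | rfl⟩ := hx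
    · convert gen a ⟨i, by omega⟩ ⟨i + 1, hi⟩ rfl 1 (Or.inl rfl) using 1
      ext x y
      simp only [transpose_apply, RingHom.mapMatrix_apply, map_apply, of_apply, Matrix.add_apply,
        Matrix.smul_apply, vecMulVec_apply, Matrix.one_apply, Pi.sub_apply, Pi.smul_apply,
        Pi.single_apply, smul_eq_mul, Fin.ext_iff]
      split_ifs <;> first | omega | (simp [ev_T]; done) | (simp [ev_T]; ring)
    · convert gen a ⟨i, by omega⟩ ⟨i + 1, hi⟩ rfl _ (Or.inr rfl) using 1
      ext x y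
      simp only [transpose_apply, RingHom.mapMatrix_apply, map_apply, of_apply, Matrix.add_apply,
        Matrix.smul_apply, vecMulVec_apply, Matrix.one_apply, Pi.sub_apply, Pi.smul_apply,
        Pi.single_apply, smul_eq_mul, Fin.ext_iff]
      split_ifs <;> first | omega | (simp [ev_T', h0]; done) | (simp [ev_T']; ring)

theorem main (n : ℕ) (M : Matrix (Fin n) (Fin n) (LaurentPolynomial ℤ))
    (hM : M ∈ Submonoid.closure (gens n)) (k : ℕ) (hk : 0 < k) (h : M ^ k = 1) : M = 1 := by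
  have h1 := key (NN n) (fun a => ((ev a).mapMatrix M)ᵀ) (NN_cont n)
    (continuous_matrix fun i j => ev_cont (M j i)) (NN_herm n) (fun a => (all_inv a hM).1)
    (fun a => (all_inv a hM).2.1) (all_inv 0 hM).2.2 (NN_zero n)
    (fun a => ⟨a + Real.pi, NN_pi n a, by rw [ev_pi]⟩) hk
    (fun a => by rw [← transpose_pow, ← map_pow, h, map_one, transpose_one])
  ext1 i j
  rw [← sub_eq_zero]
  refine ev_inj _ fun a => ?_
  have h2 : ev a (M i j) = (1 : Matrix (Fin n) (Fin n) ℂ) j i := congrFun (congrFun (h1 a) j) i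
  rw [map_sub, h2]
  by_cases h3 : i = j
  · subst h3
    rw [one_apply_eq, one_apply_eq, map_one, sub_self]
  · rw [one_apply_ne h3, one_apply_ne (Ne.symm h3), map_zero, sub_self]

end Pool.Agent.H.MP_8823bb_al
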